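import Mathlib
import Pool.Agent.HT2.Cls

/-!
Hindman's theorem for sums of exactly two elements does not imply Ramsey's theorem for pairs over
omega-models: one Turing ideal satisfies `HT^{=2}_k` for every `k` and contains, for every
`k ≥ 2`, a stable `k`-colouring of pairs without infinite homogeneous set in the ideal.
-/

namespace Pool.Agent.Results.MP_6f9266_lc.ExactTwoSums

open Classical in
/-- the characteristic function of a set of natural numbers (a total function, written as a
partially defined one, which is the type on which Mathlib defines relative computability) -/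
noncomputable def chi (A : Set ℕ) : ℕ →. ℕ := fun n => Part.some (if n ∈ A then 1 else 0)

/-- `A` is Turing reducible to `B` (Mathlib's relation on characteristic functions) -/
def TuringLE (A B : Set ℕ) : Prop := TuringReducible (chi A) (chi B)

/-- the join of two sets of natural numbers -/
def join (A B : Set ℕ) : Set ℕ := {n | ∃ k, (n = 2 * k ∧ k ∈ A) ∨ (n = 2 * k + 1 ∧ k ∈ B)}

/-- Turing ideals: nonempty classes of sets closed downwards under Turing reducibility and closed
under join; these are the second-order parts of the omega-models of `RCA_0` -/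
structure IsTuringIdeal (M : Set (Set ℕ)) : Prop where
  nonempty : M.Nonempty
  lower_mem : ∀ A B, B ∈ M → TuringLE A B → A ∈ M
  join_mem : ∀ A B, A ∈ M → B ∈ M → join A B ∈ M

/-- the set coding a `k`-colouring of the natural numbers -/
def graph1 {k : ℕ} (c : ℕ → Fin k) : Set ℕ := {n | ∃ x, n = Nat.pair x (c x)}

/-- the set coding a `k`-colouring of the pairs `x < y` of natural numbers -/
def graph2 {k : ℕ} (c : ℕ → ℕ → Fin k) : Set ℕ :=
  {n | ∃ x y, x < y ∧ n = Nat.pair (Nat.pair x y) (c x y)}

/-- `HT^{=n}_k` holds in the class `M`: for every `k`-colouring `c` of the natural numbers in `M`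
there is an infinite set `H` in `M` such that `c` is constant on the sums of exactly `n` distinct
elements of `H` -/
def HoldsHT (M : Set (Set ℕ)) (n k : ℕ) : Prop :=
  ∀ c : ℕ → Fin k, graph1 c ∈ M → ∃ H ∈ M, H.Infinite ∧ ∃ i : Fin k,
    ∀ F : Finset ℕ, (F : Set ℕ) ⊆ H → F.card = n → c (∑ x ∈ F, x) = i

/-- `H` is homogeneous for the colouring `c` of pairs -/
def Homogeneous {k : ℕ} (c : ℕ → ℕ → Fin k) (H : Set ℕ) : Prop :=
  ∃ i : Fin k, ∀ x ∈ H, ∀ y ∈ H, x < y → c x y = i

/-- `RT^2_k` holds in the class `M`: for every `k`-colouring of pairs in `M` there is an infinite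
homogeneous set in `M` -/
def HoldsRT2 (M : Set (Set ℕ)) (k : ℕ) : Prop :=
  ∀ c : ℕ → ℕ → Fin k, graph2 c ∈ M → ∃ H ∈ M, H.Infinite ∧ Homogeneous c H

/-- stable colourings of pairs -/
def Stable {k : ℕ} (c : ℕ → ℕ → Fin k) : Prop := ∀ x, ∃ i, ∃ N, ∀ y, N ≤ y → c x y = i

open Pool.Agent.EMP

/-! ### Translation -/

open Classical in
noncomputable def toOm (A : Set ℕ) : Om := fun n => decide (n ∈ A)

lemma chi_eq (A : Set ℕ) : chi A = orc (toOm A) := by
  funext n
  unfold chi orc toOm
  by_cases h : n ∈ A <;> simp [h]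

lemma turingLE_iff (A B : Set ℕ) : TuringLE A B ↔ TLE (toOm A) (toOm B) := by
  unfold TuringLE TLE TuringReducible
  rw [chi_eq, chi_eq]
  exact RecursiveIn.iff_nat

lemma toOm_join (A B : Set ℕ) : toOm (join A B) = jn (toOm A) (toOm B) := by
  funext n
  unfold toOm jn join
  by_cases h : n % 2 = 0
  · simp only [h, if_true]
    have e : n = 2 * (n / 2) := by omega
    apply decide_eq_decide.mpr
    constructor
    · rintro ⟨k, hk | hk⟩
      · have : n / 2 = k := by omega
        rw [this]; exact hk.2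
      · omega
    · intro hk
      exact ⟨n / 2, Or.inl ⟨e, hk⟩⟩
  · simp only [h, if_false]
    have e : n = 2 * (n / 2) + 1 := by omega
    apply decide_eq_decide.mpr
    constructor
    · rintro ⟨k, hk | hk⟩
      · omega
      · have : n / 2 = k := by omega
        rw [this]; exact hk.2
    · intro hk
      exact ⟨n / 2, Or.inr ⟨e, hk⟩⟩

lemma toOm_set (G : Om) : toOm {x | G x = true} = G := by
  funext n
  unfold toOm
  by_cases h : G n = true <;> simp [h]

lemma toOm_iff (A : Set ℕ) (n : ℕ) : toOm A n = true ↔ n ∈ A := by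
  unfold toOm
  simp

lemma mem_graph1 {k : ℕ} (c : ℕ → Fin k) (x j : ℕ) :
    toOm (graph1 c) (Nat.pair x j) = true ↔ (c x : ℕ) = j := by
  rw [toOm_iff]
  unfold graph1
  constructor
  · rintro ⟨x', he⟩
    have e1 := congrArg (fun t => (Nat.unpair t).1) he
    have e2 := congrArg (fun t => (Nat.unpair t).2) he
    simp only [Nat.unpair_pair] at e1 e2
    rw [e1, e2]
  · rintro rfl
    exact ⟨x, rfl⟩

lemma col_graph1 {k : ℕ} (c : ℕ → Fin k) (x : ℕ) :
    HT2.col k (toOm (graph1 c)) x = c x := by
  have hex : ∃ j, j < k ∧ toOm (graph1 c) (Nat.pair x j) = true :=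
    ⟨c x, (c x).2, (mem_graph1 c x _).mpr rfl⟩
  unfold HT2.col
  rw [dif_pos hex]
  exact ((mem_graph1 c x _).mp (Nat.find_spec hex).2).symm

/-- the `k`-colouring given by a colouring with two colours -/
def lift2 {k : ℕ} (hk : 2 ≤ k) (f : ℕ → ℕ → Bool) : ℕ → ℕ → Fin k :=
  fun x y => if f x y = true then ⟨1, by omega⟩ else ⟨0, by omega⟩

lemma graph2_TLE {k : ℕ} (hk : 2 ≤ k) (f : ℕ → ℕ → Bool) :
    TLE (toOm (graph2 (lift2 hk f))) (code f) := by
  have hid : Nat.RecursiveIn {orc (code f)} (fun n => Part.some (id n)) := recIn_some Primrec.id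
  have h1 := recIn_comp (O := {orc (code f)}) (A := code f) (F := fun n => n.unpair.1)
    (.oracle _ (Set.mem_singleton _)) (Primrec.fst.comp Primrec.unpair)
  have h2 := recIn_pair hid h1
  -- input: pair n v, with v the value of the colouring at the pair coded by `n.unpair.1`
  have hF : Primrec (fun t : ℕ => if t.unpair.1.unpair.1.unpair.1 < t.unpair.1.unpair.1.unpair.2 ∧
      t.unpair.1.unpair.2 = t.unpair.2 then 1 else 0) := by
    have p1 : Primrec (fun t : ℕ => t.unpair.1) := Primrec.fst.comp Primrec.unpair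
    have p2 : Primrec (fun t : ℕ => t.unpair.2) := Primrec.snd.comp Primrec.unpair
    apply Primrec.ite
    · apply PrimrecPred.and
      · exact Primrec.nat_lt.comp (p1.comp (p1.comp p1)) (p2.comp (p1.comp p1))
      · exact Primrec.eq.comp (p2.comp p1) p2
    · exact Primrec.const 1
    · exact Primrec.const 0
  refine (recIn_comp' hF h2).of_eq (fun n => ?_)
  simp only [Nat.unpair_pair, orc, id]
  congr 1
  have key : (n.unpair.1.unpair.1 < n.unpair.1.unpair.2 ∧
      n.unpair.2 = if code f n.unpair.1 = true then 1 else 0) ↔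
      toOm (graph2 (lift2 hk f)) n = true := by
    rw [toOm_iff]
    unfold graph2
    constructor
    · rintro ⟨ha, hb⟩
      refine ⟨n.unpair.1.unpair.1, n.unpair.1.unpair.2, ha, ?_⟩
      rw [Nat.pair_unpair]
      have hv : ((lift2 hk f n.unpair.1.unpair.1 n.unpair.1.unpair.2 : Fin k) : ℕ) = n.unpair.2 := by
        rw [hb]
        unfold lift2 code
        by_cases hf : f n.unpair.1.unpair.1 n.unpair.1.unpair.2 = true
        · simp [hf, ha]
        · have hf' : f n.unpair.1.unpair.1 n.unpair.1.unpair.2 = false := by simpa using hf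
          simp [hf']
      rw [hv, Nat.pair_unpair]
    · rintro ⟨x, y, hxy, hn⟩
      have e1 : n.unpair.1 = Nat.pair x y := by rw [hn, Nat.unpair_pair]
      have e2 : n.unpair.2 = ((lift2 hk f x y : Fin k) : ℕ) := by rw [hn, Nat.unpair_pair]
      rw [e1, Nat.unpair_pair]
      refine ⟨hxy, ?_⟩
      rw [e2]
      unfold lift2 code
      rw [Nat.unpair_pair]
      by_cases hf : f x y = true
      · simp [hf, hxy]
      · have hf' : f x y = false := by simpa using hf
        simp [hf']
  by_cases h : toOm (graph2 (lift2 hk f)) n = true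
  · rw [if_pos (key.mpr h), if_pos h]
  · rw [if_neg (fun h' => h (key.mp h')), if_neg h]

/-- There is a Turing ideal `M` such that `HT^{=2}_k` holds in `M` for every `k`, and for every
`k ≥ 2` there is a stable `k`-colouring of pairs in `M` without infinite homogeneous set in `M`.
So for every `k ≥ 2` the principle `HT^{=2}_k` (and even all `HT^{=2}_l` together) does not imply
`RT^2_k` over omega-models. -/
theorem result : ∃ M : Set (Set ℕ), IsTuringIdeal M ∧ (∀ k, HoldsHT M 2 k) ∧
    ∀ k, 2 ≤ k → (∃ c : ℕ → ℕ → Fin k, Stable c ∧ graph2 c ∈ M ∧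
      ∀ H ∈ M, H.Infinite → ¬ Homogeneous c H) ∧ ¬ HoldsRT2 M k := by
  obtain ⟨f, g, W, hst, h0, hle, hHT, hreal⟩ := HT2.model
  have hmono : ∀ n m, n ≤ m → TLE (W n) (W m) := by
    intro n m hnm
    induction m, hnm using Nat.le_induction with
    | base => exact TLE.refl _
    | succ m _ ih => exact TLE.trans ih (hle m)
  have hset : ∀ H : Set ℕ, {x | toOm H x = true} = H := by
    intro H
    ext x
    unfold toOm
    simp
  let M : Set (Set ℕ) := {A | ∃ n, TLE (toOm A) (W n)}
  have hne : {x | code f x = true} ∈ M := ⟨0, by rw [toOm_set, h0]; exact TLE.refl _⟩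
  have hkey : ∀ k, ∀ hk : 2 ≤ k, ∃ c : ℕ → ℕ → Fin k, Stable c ∧ graph2 c ∈ M ∧
      ∀ H ∈ M, H.Infinite → ¬ Homogeneous c H := by
    intro k hk
    refine ⟨lift2 hk f, ?_, ⟨0, by rw [h0]; exact graph2_TLE hk f⟩, ?_⟩
    · intro x
      obtain ⟨N, hN⟩ := hst x
      refine ⟨if g x = true then ⟨1, by omega⟩ else ⟨0, by omega⟩, N, fun y hy => ?_⟩
      unfold lift2
      rw [hN y hy]
    · rintro H ⟨n, hn⟩ hinf ⟨i, hi⟩
      have hval : ∀ j, ∃ x ∈ H, g x = j := by
        intro j
        obtain ⟨x, hx, hxj⟩ := hreal n _ hn (by rw [hset]; exact hinf) j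
        refine ⟨x, ?_, hxj⟩
        have : x ∈ {x | toOm H x = true} := hx
        rw [hset] at this; exact this
      have hcol : ∀ x ∈ H, (lift2 hk (fun x _ => g x) x 0) = i := by
        intro x hx
        obtain ⟨N, hN⟩ := hst x
        obtain ⟨y, hy, hyN⟩ := hinf.exists_gt (max N x)
        have h1 := hi x hx y hy (by omega)
        unfold lift2 at h1 ⊢
        rw [hN y (by omega)] at h1
        exact h1
      obtain ⟨x, hx, hx1⟩ := hval true
      obtain ⟨y, hy, hy1⟩ := hval false
      have a1 := hcol x hx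
      have a2 := hcol y hy
      unfold lift2 at a1 a2
      beta_reduce at a1 a2
      rw [hx1] at a1
      rw [hy1] at a2
      have a3 := congrArg Fin.val a1
      have a4 := congrArg Fin.val a2
      simp only [if_true] at a3
      simp at a4
      omega
  refine ⟨M, ⟨⟨_, hne⟩, ?_, ?_⟩, ?_, ?_⟩
  · rintro A B ⟨n, hn⟩ hAB
    exact ⟨n, TLE.trans ((turingLE_iff A B).mp hAB) hn⟩
  · rintro A B ⟨n, hn⟩ ⟨m, hm⟩
    refine ⟨max n m, ?_⟩
    rw [toOm_join]
    exact TLE_jn (TLE.trans hn (hmono _ _ (le_max_left _ _)))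
      (TLE.trans hm (hmono _ _ (le_max_right _ _)))
  · rintro k c ⟨n, hn⟩
    have hk : 0 < k := lt_of_le_of_lt (Nat.zero_le _) (c 0).2
    obtain ⟨m, G, i, hik, h1, h2, h3⟩ := hHT n k _ hk hn
    refine ⟨{x | G x = true}, ⟨m, ?_⟩, h2, ⟨i, hik⟩, ?_⟩
    · rw [toOm_set]; exact h1
    · intro F hF hcard
      obtain ⟨x, y, hxy, rfl⟩ := Finset.card_eq_two.mp hcard
      rw [Finset.sum_pair hxy]
      have hx : G x = true := hF (by simp)
      have hy : G y = true := hF (by simp)
      have := h3 x y hx hy hxy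
      rw [col_graph1] at this
      exact Fin.ext this
  · intro k hk
    refine ⟨hkey k hk, fun hRT => ?_⟩
    obtain ⟨c, _, h2, h3⟩ := hkey k hk
    obtain ⟨H, hH, hinf, hhom⟩ := hRT c h2
    exact h3 H hH hinf hhom

end Pool.Agent.Results.MP_6f9266_lc.ExactTwoSums
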